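import Pool.Agent.Y489.GE.Stm2

/-!
# The slicing inequality for Hausdorff measures

Eilenberg's inequality in the form needed for the problem MP_3eff7f_gt.
-/

set_option autoImplicit false

open Set Topology MeasureTheory Filter Metric
open scoped ENNReal

noncomputable section

namespace Pool.Agent.Y686.GE

open Pool.Agent.Y489.GE

variable {X : Type} [MetricSpace X] [MeasurableSpace X] [BorelSpace X]

/-- covers with almost minimal sum of powers of the diameters -/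
lemma covers (m : ℕ) (A : Set X) (hA : μH[(m : ℝ) + 1] A ≠ ⊤) :
    ∃ t : ℕ → ℕ → Set X, (∀ k, A ⊆ ⋃ i, t k i) ∧
      (∀ k i, ediam (t k i) ≤ ((k : ℝ≥0∞) + 1)⁻¹) ∧
      ∀ k, ∑' i, ⨆ _ : (t k i).Nonempty, ediam (t k i) ^ ((m : ℝ) + 1) ≤
        μH[(m : ℝ) + 1] A + ((k : ℝ≥0∞) + 1)⁻¹ := by
  have h : ∀ k : ℕ, ∃ t : ℕ → Set X, A ⊆ ⋃ i, t i ∧ (∀ i, ediam (t i) ≤ ((k : ℝ≥0∞) + 1)⁻¹) ∧
      ∑' i, ⨆ _ : (t i).Nonempty, ediam (t i) ^ ((m : ℝ) + 1) ≤
        μH[(m : ℝ) + 1] A + ((k : ℝ≥0∞) + 1)⁻¹ := by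
    intro k
    have hpos : (0 : ℝ≥0∞) < ((k : ℝ≥0∞) + 1)⁻¹ := by
      rw [ENNReal.inv_pos]
      exact ENNReal.add_ne_top.2 ⟨ENNReal.natCast_ne_top k, ENNReal.one_ne_top⟩
    have h1 : (⨅ (t : ℕ → Set X) (_ : A ⊆ ⋃ n, t n) (_ : ∀ n, ediam (t n) ≤ ((k : ℝ≥0∞) + 1)⁻¹),
        ∑' n, ⨆ _ : (t n).Nonempty, ediam (t n) ^ ((m : ℝ) + 1)) ≤ μH[(m : ℝ) + 1] A := by
      rw [Measure.hausdorffMeasure_apply]
      exact le_iSup₂_of_le (((k : ℝ≥0∞) + 1)⁻¹) hpos le_rfl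
    have h2 : (⨅ (t : ℕ → Set X) (_ : A ⊆ ⋃ n, t n) (_ : ∀ n, ediam (t n) ≤ ((k : ℝ≥0∞) + 1)⁻¹),
        ∑' n, ⨆ _ : (t n).Nonempty, ediam (t n) ^ ((m : ℝ) + 1)) <
        μH[(m : ℝ) + 1] A + ((k : ℝ≥0∞) + 1)⁻¹ :=
      h1.trans_lt (ENNReal.lt_add_right hA hpos.ne')
    simp only [iInf_lt_iff] at h2
    obtain ⟨t, ht1, ht2, ht3⟩ := h2
    exact ⟨t, ht1, ht2, ht3.le⟩
  choose t h1 h2 h3 using h
  exact ⟨t, h1, h2, h3⟩

theorem t_EIL : S_EIL := by
  intro X _ _ _ m A f hf a b hab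
  by_cases hA : μH[(m : ℝ) + 1] A = ⊤
  · obtain ⟨ρ, hρ⟩ := exists_between hab
    exact ⟨ρ, hρ, by rw [hA]; exact le_top⟩
  obtain ⟨t, ht1, ht2, ht3⟩ := covers m A hA
  let J : ℕ → ℕ → Set ℝ := fun k i => toMeasurable volume (f '' t k i)
  have hJm : ∀ k i, MeasurableSet (J k i) := fun k i => measurableSet_toMeasurable _ _
  have hJs : ∀ k i, f '' t k i ⊆ J k i := fun k i => subset_toMeasurable _ _
  have hJv : ∀ k i, volume (J k i) ≤ ediam (t k i) := by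
    intro k i
    show volume (toMeasurable volume (f '' t k i)) ≤ _
    rw [measure_toMeasurable]
    refine (Real.volume_le_diam _).trans ?_
    simpa using hf.ediam_image_le (t k i)
  let g : ℕ → ℝ → ℝ≥0∞ := fun k ρ =>
    ∑' i, (J k i).indicator (fun _ => ediam (t k i) ^ (m : ℝ)) ρ
  have hgm : ∀ k, Measurable (g k) := by
    intro k
    exact Measurable.tsum fun i => measurable_const.indicator (hJm k i)
  have hgi : ∀ k, ∫⁻ ρ, g k ρ ≤ μH[(m : ℝ) + 1] A + ((k : ℝ≥0∞) + 1)⁻¹ := by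
    intro k
    refine le_trans ?_ (ht3 k)
    show ∫⁻ ρ, ∑' i, (J k i).indicator (fun _ => ediam (t k i) ^ (m : ℝ)) ρ ≤ _
    rw [lintegral_tsum fun i => (measurable_const.indicator (hJm k i)).aemeasurable]
    refine ENNReal.tsum_le_tsum fun i => ?_
    rw [lintegral_indicator (hJm k i), setLIntegral_const]
    by_cases hne : (t k i).Nonempty
    · rw [iSup_pos hne]
      calc ediam (t k i) ^ (m : ℝ) * volume (J k i) ≤
          ediam (t k i) ^ (m : ℝ) * ediam (t k i) := by gcongr; exact hJv k i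
        _ = ediam (t k i) ^ ((m : ℝ) + 1) := by
          rw [ENNReal.rpow_add_of_nonneg _ _ (Nat.cast_nonneg m) zero_le_one, ENNReal.rpow_one]
    · rw [not_nonempty_iff_eq_empty] at hne
      have : volume (J k i) = 0 := by
        show volume (toMeasurable volume (f '' t k i)) = 0
        rw [measure_toMeasurable, hne, image_empty, measure_empty]
      rw [this, mul_zero]
      exact bot_le
  let h : ℝ → ℝ≥0∞ := fun ρ => liminf (fun k => g k ρ) atTop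
  have hinv : Tendsto (fun k : ℕ => ((k : ℝ≥0∞) + 1)⁻¹) atTop (𝓝 0) := by
    have h1 := (ENNReal.tendsto_inv_nat_nhds_zero).comp (tendsto_add_atTop_nat 1)
    refine h1.congr fun k => ?_
    simp
  have hh : ∀ ρ, μH[(m : ℝ)] (A ∩ f ⁻¹' {ρ}) ≤ h ρ := by
    intro ρ
    have h1 := Measure.hausdorffMeasure_le_liminf_tsum (ι := fun k => {i : ℕ // ρ ∈ J k i})
      (m : ℝ) (A ∩ f ⁻¹' {ρ}) (l := atTop) (fun k : ℕ => ((k : ℝ≥0∞) + 1)⁻¹) hinv
      (fun k i => t k i.1) (Eventually.of_forall fun k i => ht2 k i.1)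
      (Eventually.of_forall fun k => by
        intro x hx
        obtain ⟨i, hi⟩ := mem_iUnion.1 (ht1 k hx.1)
        refine mem_iUnion.2 ⟨⟨i, hJs k i ?_⟩, hi⟩
        exact ⟨x, hi, hx.2⟩)
    refine h1.trans (le_of_eq ?_)
    show _ = liminf (fun k => g k ρ) atTop
    congr 1
    funext k
    show ∑' i : {i : ℕ // ρ ∈ J k i}, ediam (t k i.1) ^ (m : ℝ) =
      ∑' i, (J k i).indicator (fun _ => ediam (t k i) ^ (m : ℝ)) ρ
    have h2 := tsum_subtype {i : ℕ | ρ ∈ J k i} (fun i => ediam (t k i) ^ (m : ℝ))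
    refine Eq.trans h2 ?_
    refine tsum_congr fun i => ?_
    by_cases hi : ρ ∈ J k i
    · rw [indicator_of_mem hi, indicator_of_mem (show i ∈ {i : ℕ | ρ ∈ J k i} from hi)]
    · rw [indicator_of_notMem hi, indicator_of_notMem (show i ∉ {i : ℕ | ρ ∈ J k i} from hi)]
  have hhm : Measurable h := Measurable.liminf hgm
  have hhi : ∫⁻ ρ in Ioo a b, h ρ ≤ μH[(m : ℝ) + 1] A := by
    refine (lintegral_liminf_le hgm).trans ?_
    refine (liminf_le_liminf (Eventually.of_forall fun k =>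
      (lintegral_mono' Measure.restrict_le_self le_rfl).trans (hgi k))).trans ?_
    have h1 : Tendsto (fun k : ℕ => μH[(m : ℝ) + 1] A + ((k : ℝ≥0∞) + 1)⁻¹) atTop
        (𝓝 (μH[(m : ℝ) + 1] A + 0)) := tendsto_const_nhds.add hinv
    rw [h1.liminf_eq, add_zero]
  have hv : volume (Ioo a b) = ENNReal.ofReal (b - a) := Real.volume_Ioo
  have hv0 : ENNReal.ofReal (b - a) ≠ 0 := by
    rw [Ne, ENNReal.ofReal_eq_zero, not_le]
    linarith
  obtain ⟨ρ, hρ, hle⟩ := exists_le_setLAverage (μ := volume) (s := Ioo a b) (f := h)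
    (by rw [hv]; exact hv0) (by rw [hv]; exact ENNReal.ofReal_ne_top) hhm.aemeasurable
  refine ⟨ρ, hρ, ?_⟩
  rw [setLAverage_eq, hv] at hle
  calc ENNReal.ofReal (b - a) * μH[(m : ℝ)] (A ∩ f ⁻¹' {ρ}) ≤ ENNReal.ofReal (b - a) * h ρ := by
        gcongr; exact hh ρ
    _ ≤ ENNReal.ofReal (b - a) * ((∫⁻ ρ in Ioo a b, h ρ) / ENNReal.ofReal (b - a)) := by gcongr
    _ = ∫⁻ ρ in Ioo a b, h ρ := ENNReal.mul_div_cancel hv0 ENNReal.ofReal_ne_top
    _ ≤ _ := hhi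

end Pool.Agent.Y686.GE
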